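import Pool.Agent.SZQ.Inst

/-! Automorphisms of the Suzuki groups that fix the root group and the torus are semilinear on the
centre of the root group. -/

set_option autoImplicit false

namespace Pool.Agent.SZA

open Pool.Agent.SZQ Pool.Agent.SZQ.Inst Pool.Agent.Helper8.SUZ

section
variable {F : Type} [Field F] [Finite F] [Tits F]

omit [Finite F] in
theorem fld_inj (α : Sz (th : F →+* F) ≃* Sz (th : F →+* F)) {β : F → F}
    (hβ : ∀ b, α (sS 0 b) = sS 0 (β b)) {x y : F} (h : β x = β y) : x = y := by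
  have h1 : α (sS 0 x) = α (sS 0 y) := by rw [hβ, hβ, h]
  exact (sS_inj (α.injective h1)).2

omit [Finite F] in
theorem fld_kinj {m m' : Fˣ}
    (h : th (m : F) * (m : F) ^ 2 = th (m' : F) * (m' : F) ^ 2) : m = m' := by
  have h0 : th (m' : F) ≠ 0 := th_ne m'.ne_zero
  have h1 : (m' : F) ≠ 0 := m'.ne_zero
  have h2 : th ((m / m' : Fˣ) : F) * ((m / m' : Fˣ) : F) ^ 2 = 1 := by
    rw [Units.val_div_eq_div_val, map_div₀]
    field_simp
    linear_combination h
  exact div_eq_one.1 (fp_b h2)

/-- module Fld -/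
theorem fldA (hF : 8 ≤ Nat.card F) (hc : ∀ (τ : F ≃+* F) (x : F), τ (th x) = th (τ x))
    (α : Sz (th : F →+* F) ≃* Sz (th : F →+* F))
    (hU : ∀ u, α u ∈ UU F ↔ u ∈ UU F) (hT : ∀ m, ∃ m', α (sM m) = sM m') :
    ∃ (τ : F ≃+* F) (c : F), c ≠ 0 ∧ (∀ b, α (sS 0 b) = sS 0 (c * τ b)) ∧
      ∀ m : Fˣ, α (sM m) = sM (Units.map (τ : F →* F) m) := by
  classical
  have hb : ∀ b : F, ∃ b', α (sS 0 b) = sS 0 b' := by
    intro b
    obtain ⟨x, y, hxy⟩ := (hU (sS 0 b)).2 ⟨0, b, rfl⟩
    have h1 : sS x y * sS x y = 1 := by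
      rw [← hxy, ← map_mul, sq_eq, map_one]
    have hx : x = 0 := by
      by_contra hx
      exact sq_ne hx h1
    exact ⟨y, by rw [hxy, hx]⟩
  choose β hβ using hb
  choose μ hμ using hT
  have hadd : ∀ x y, β (x + y) = β x + β y := by
    intro x y
    have h1 : sS (0 : F) x * sS 0 y = sS 0 (x + y) := by
      rw [sS_mul]
      congr 1 <;> ring
    have h2 := congrArg α h1
    rw [map_mul, hβ, hβ, hβ, sS_mul] at h2
    have h3 := (sS_inj h2).2
    linear_combination -h3
  have hβ0 : β 0 = 0 := by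
    have := hadd 0 0
    rw [add_zero] at this
    linear_combination -this
  have hβi : Function.Injective β := fun x y h => fld_inj α hβ h
  have hβs : Function.Surjective β := Finite.injective_iff_surjective.1 hβi
  have hβ1 : β 1 ≠ 0 := by
    intro h
    exact one_ne_zero (hβi (h.trans hβ0.symm))
  -- equivariance
  have heq : ∀ (m : Fˣ) (b : F), β (b / (th (m : F) * (m : F) ^ 2)) =
      β b / (th (μ m : F) * (μ m : F) ^ 2) := by
    intro m b
    have h1 := congrArg α (sM_conj m 0 b)
    rw [map_mul, map_mul, map_inv, hμ, hβ, sM_conj] at h1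
    have h2 : (0 : F) / th (m : F) = 0 := zero_div _
    rw [h2, hβ] at h1
    exact (sS_inj h1).2.symm
  have hk : ∀ m : Fˣ, th (m : F) * (m : F) ^ 2 ≠ 0 := fun m =>
    mul_ne_zero (th_ne m.ne_zero) (pow_ne_zero 2 m.ne_zero)
  have hksurj : ∀ y : F, y ≠ 0 → ∃ m : Fˣ, th (m : F) * (m : F) ^ 2 = y := by
    intro y hy
    let f : Fˣ → Fˣ := fun m => Units.mk0 (th (m : F) * (m : F) ^ 2) (hk m)
    have hf : Function.Injective f := fun m m' h => fld_kinj (congrArg Units.val h)
    obtain ⟨m, hm⟩ := Finite.injective_iff_surjective.1 hf (Units.mk0 y hy)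
    exact ⟨m, congrArg Units.val hm⟩
  -- value at 1 / k m
  have hone : ∀ m : Fˣ, β (1 / (th (m : F) * (m : F) ^ 2)) / β 1 =
      1 / (th (μ m : F) * (μ m : F) ^ 2) := by
    intro m
    rw [heq]
    field_simp
  let f : F → F := fun x => β x / β 1
  have hf1 : f 1 = 1 := div_self hβ1
  have hf0 : f 0 = 0 := by simp only [f, hβ0, zero_div]
  have hfadd : ∀ x y, f (x + y) = f x + f y := by
    intro x y
    simp only [f, hadd, add_div]
  have hfmul : ∀ x y, f (x * y) = f x * f y := by
    intro x y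
    by_cases hy : y = 0
    · rw [hy, mul_zero, hf0, mul_zero]
    · obtain ⟨m, hm⟩ := hksurj (1 / y) (one_div_ne_zero hy)
      have hy' : y = 1 / (th (m : F) * (m : F) ^ 2) := by
        rw [hm, one_div_one_div]
      have h1 : f (x * y) = β x / (th (μ m : F) * (μ m : F) ^ 2) / β 1 := by
        have h3 : x * y = x / (th (m : F) * (m : F) ^ 2) := by
          rw [hy', mul_one_div]
        simp only [f]
        rw [h3, heq]
      have h2 : f y = 1 / (th (μ m : F) * (μ m : F) ^ 2) := by
        rw [hy']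
        exact hone m
      rw [h1, h2]
      simp only [f]
      ring
  have hfi : Function.Injective f := by
    intro x y h
    apply hβi
    have h1 : β x / β 1 = β y / β 1 := h
    exact (div_left_inj' hβ1).1 h1
  have hfs : Function.Surjective f := Finite.injective_iff_surjective.1 hfi
  let g : F →+* F :=
    { toFun := f
      map_one' := hf1
      map_mul' := hfmul
      map_zero' := hf0
      map_add' := hfadd }
  let τ : F ≃+* F := RingEquiv.ofBijective g ⟨hfi, hfs⟩
  have hτ : ∀ x, τ x = β x / β 1 := fun x => rfl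
  refine ⟨τ, β 1, hβ1, fun b => ?_, fun m => ?_⟩
  · rw [hβ, hτ]
    congr 1
    field_simp
  · rw [hμ]
    congr 1
    apply fld_kinj
    have h1 := hone m
    have h2 : τ (1 / (th (m : F) * (m : F) ^ 2)) = 1 / (th (μ m : F) * (μ m : F) ^ 2) := h1
    rw [map_div₀, map_one] at h2
    have h3 : τ (th (m : F) * (m : F) ^ 2) = th (μ m : F) * (μ m : F) ^ 2 := by
      have h4 := congrArg (fun z => 1 / z) h2
      simpa only [one_div_one_div] using h4
    rw [← h3, map_mul, map_pow, hc]
    rfl

end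

end Pool.Agent.SZA
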