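import Pool.Agent.SZQ.Inst
import Pool.Agent.Helper8.SUZ.K0

/-! module Lin: an automorphism of the Suzuki group which fixes the torus and the element `sW` and
is linear on the centre of `UU` is the identity. -/

set_option autoImplicit false

namespace Pool.Agent.SZA

open Pool.Agent.SZQ Pool.Agent.SZQ.Inst Pool.Agent.Helper8.SUZ

section
variable {F : Type} [Field F] [Finite F] [Tits F]

private theorem lin_W2 : (sW : Sz (th : F →+* F)) * sW = 1 := Subtype.ext gW_sq

private theorem lin_WM (m : Fˣ) : (sW : Sz (th : F →+* F)) * sM m = sM m⁻¹ * sW :=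
  Subtype.ext (gW_gM m)

private theorem lin_split (a b : F) : sS a b = sS a 0 * sS 0 b := by
  rw [sS_mul]
  congr 1 <;> ring

/-- an element `≠ 0, 1` -/
private theorem lin_elt (hF : 8 ≤ Nat.card F) : ∃ a : F, a ≠ 0 ∧ a ≠ 1 := by
  classical
  haveI := Fintype.ofFinite F
  obtain ⟨c, -, hc⟩ := Finset.exists_mem_notMem_of_card_lt_card
    (s := ({0, 1} : Finset F)) (t := Finset.univ) (by
      rw [Finset.card_univ, ← Nat.card_eq_fintype_card]
      have := Finset.card_le_two (a := (0 : F)) (b := 1)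
      omega)
  simp only [Finset.mem_insert, Finset.mem_singleton, not_or] at hc
  exact ⟨c, hc.1, hc.2⟩

/-- the action on `UU` -/
private theorem lin_U (hF : 8 ≤ Nat.card F) (α : Sz (th : F →+* F) ≃* Sz (th : F →+* F))
    (hU : ∀ u ∈ UU F, α u ∈ UU F) (c : F) (hc : c ≠ 0) (h0 : ∀ b, α (sS 0 b) = sS 0 (c * b))
    (hM : ∀ m, α (sM m) = sM m) :
    ∃ d : F, d ≠ 0 ∧ c = th d * d ∧ ∀ a b, α (sS a b) = sS (d * a) (c * b) := by
  obtain ⟨d, e, hd⟩ := hU (sS 1 0) ⟨1, 0, rfl⟩
  have key : ∀ a : F, α (sS a 0) = sS (d * a) (e * (a * th a)) := by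
    intro a
    by_cases ha : a = 0
    · subst ha
      rw [sS_zero, map_one, ← sS_zero]
      congr 1 <;> simp
    · obtain ⟨y, hy⟩ := th_surj (a⁻¹)
      have hy0 : y ≠ 0 := by
        rintro rfl
        rw [map_zero] at hy
        exact inv_ne_zero ha hy.symm
      have h1 := sM_conj (Units.mk0 y hy0) (1 : F) 0
      rw [Units.val_mk0, hy] at h1
      have h2 := sM_conj (Units.mk0 y hy0) d e
      rw [Units.val_mk0, hy] at h2
      have h3 : (1 : F) / a⁻¹ = a := by field_simp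
      have h4 : (0 : F) / (a⁻¹ * y ^ 2) = 0 := zero_div _
      rw [h3, h4] at h1
      have h5 : y ^ 2 = (th a)⁻¹ := by
        rw [← th_th, hy, map_inv₀]
      have h6 : d / a⁻¹ = d * a := by field_simp
      have hta : th a ≠ 0 := th_ne ha
      have h7 : e / (a⁻¹ * y ^ 2) = e * (a * th a) := by
        rw [h5]
        field_simp
      rw [h6, h7] at h2
      rw [← h1, map_mul, map_mul, map_inv, hM, hd, h2]
  have hab : ∀ a b : F, th d * d * (th a * b) = e * (a * th b + b * th a) + c * (th a * b) := by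
    intro a b
    have h1 : sS a 0 * sS b 0 = sS (a + b) 0 * sS 0 (th a * b) := by
      rw [sS_mul, sS_mul]
      congr 1 <;> ring
    have h2 := congrArg α h1
    rw [map_mul, map_mul, key, key, key, h0, sS_mul, sS_mul] at h2
    have h3 := (sS_inj h2).2
    rw [map_mul, map_mul, map_add] at h3
    linear_combination h3
  have hcd : c = th d * d := by
    have h1 := hab 1 1
    rw [map_one] at h1
    linear_combination -h1 - e * two_zero (F := F)
  have he : e = 0 := by
    obtain ⟨a, ha0, ha1⟩ := lin_elt hF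
    have h1 := hab a 1
    rw [map_one, ← hcd] at h1
    have h2 : e * (a + th a) = 0 := by linear_combination -h1
    rcases mul_eq_zero.1 h2 with h3 | h3
    · exact h3
    · exfalso
      have h4 : th a = a := by linear_combination h3 - a * two_zero (F := F)
      rcases th_fix h4 with h5 | h5
      · exact ha0 h5
      · exact ha1 h5
  have hd0 : d ≠ 0 := by
    rintro rfl
    rw [mul_zero] at hcd
    exact hc hcd
  refine ⟨d, hd0, hcd, fun a b => ?_⟩
  rw [lin_split a b, map_mul, key, h0, he, sS_mul]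
  congr 1 <;> ring

/-- module Lin -/
theorem lin (hF : 8 ≤ Nat.card F) (α : Sz (th : F →+* F) ≃* Sz (th : F →+* F))
    (hU : ∀ u ∈ UU F, α u ∈ UU F) (c : F) (hc : c ≠ 0) (h0 : ∀ b, α (sS 0 b) = sS 0 (c * b))
    (hM : ∀ m, α (sM m) = sM m) (hW : α sW = sW) (g : Sz (th : F →+* F)) : α g = g := by
  obtain ⟨d, hd0, hcd, hS⟩ := lin_U hF α hU c hc h0 hM
  -- the relation
  obtain ⟨a1, b1, m1, a2, b2, hrel⟩ : ∃ a1 b1 m1 a2 b2,
      (sW : Sz (th : F →+* F)) * sS 0 1 * sW = sS a1 b1 * sM m1 * sW * sS a2 b2 := by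
    rcases s_form (sW * sS (0 : F) 1 * sW) with ⟨a, b, m, h⟩ | h
    · exfalso
      have h1 : sS 0 0 * sM 1 * sW * sS (0 : F) 1 = sS a b * sM m * sW * sS 0 0 := by
        rw [sS_zero, sM_one, one_mul, one_mul, mul_one, ← h, mul_assoc, lin_W2, mul_one]
      exact one_ne_zero (s_big h1).2.2.2.2
    · exact h
  -- the unit `s` with `th s = d⁻¹`
  obtain ⟨y, hy⟩ := th_surj (d⁻¹)
  have hy0 : y ≠ 0 := by
    rintro rfl
    rw [map_zero] at hy
    exact inv_ne_zero hd0 hy.symm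
  obtain ⟨s, hs⟩ : ∃ s : Fˣ, (s : F) = y := ⟨Units.mk0 y hy0, Units.val_mk0 hy0⟩
  have htd : th d ≠ 0 := th_ne hd0
  have hk : th (s : F) * (s : F) ^ 2 = c⁻¹ := by
    rw [hs, ← th_th, hy, map_inv₀, hcd]
    field_simp
  have hconj : sM s * sS (0 : F) 1 * (sM s)⁻¹ = sS 0 (c * 1) := by
    rw [sM_conj, hk]
    congr 1
    · simp
    · simp
  have hA : (sW : Sz (th : F →+* F)) * sS 0 (c * 1) * sW =
      sS (d * a1) (c * b1) * sM m1 * sW * sS (d * a2) (c * b2) := by
    have h1 := congrArg α hrel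
    rw [map_mul, map_mul, map_mul, map_mul, map_mul, hW, h0, hS, hS, hM] at h1
    exact h1
  have hB : (sW : Sz (th : F →+* F)) * sS 0 (c * 1) * sW =
      (sM s⁻¹ * sS a1 b1 * (sM s⁻¹)⁻¹) * sM (s⁻¹ * m1 * s⁻¹) * sW *
        (sM s⁻¹ * sS a2 b2 * (sM s⁻¹)⁻¹) := by
    have h1 : (sW : Sz (th : F →+* F)) * sM s = sM s⁻¹ * sW := lin_WM s
    have h2 : (sM s)⁻¹ * (sW : Sz (th : F →+* F)) = sW * (sM s⁻¹)⁻¹ := by
      rw [inv_mul_eq_iff_eq_mul, ← mul_assoc, eq_mul_inv_iff_mul_eq, lin_WM, inv_inv]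
    calc (sW : Sz (th : F →+* F)) * sS 0 (c * 1) * sW
        = (sW * sM s) * sS 0 1 * ((sM s)⁻¹ * sW) := by
          rw [← hconj]
          group
      _ = sM s⁻¹ * (sW * sS 0 1 * sW) * (sM s⁻¹)⁻¹ := by
          rw [h1, h2]
          group
      _ = sM s⁻¹ * (sS a1 b1 * sM m1 * sW * sS a2 b2) * (sM s⁻¹)⁻¹ := by rw [hrel]
      _ = (sM s⁻¹ * sS a1 b1 * (sM s⁻¹)⁻¹) * (sM s⁻¹ * sM m1 * (sW * (sM s⁻¹)⁻¹)) *
            (sM s⁻¹ * sS a2 b2 * (sM s⁻¹)⁻¹) := by group
      _ = _ := by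
          have h3 : (sW : Sz (th : F →+* F)) * (sM s⁻¹)⁻¹ = sM s⁻¹ * sW := by
            rw [sM_inv, inv_inv, lin_WM]
          rw [h3, ← sM_mul, ← sM_mul]
          simp only [mul_assoc]
  rw [hA, sM_conj, sM_conj] at hB
  have hm := (s_big hB).2.2.1
  have hs1 : s = 1 := by
    have h1 : s⁻¹ * s⁻¹ = 1 := by
      have h2 : m1 * 1 = m1 * (s⁻¹ * s⁻¹) := by
        rw [mul_one]
        calc m1 = s⁻¹ * m1 * s⁻¹ := hm
          _ = m1 * (s⁻¹ * s⁻¹) := by rw [mul_comm s⁻¹ m1, mul_assoc]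
      exact (mul_left_cancel h2).symm
    have h3 : s * s = 1 := by
      have := congrArg (fun x => x⁻¹) h1
      simpa using this
    have h4 : (s : F) * s = 1 := by
      have := congrArg (fun x : Fˣ => (x : F)) h3
      simpa using this
    have h5 : ((s : F) - 1) ^ 2 = 0 := by
      linear_combination h4 + (1 - (s : F)) * two_zero (F := F)
    have h6 : (s : F) - 1 = 0 := pow_eq_zero_iff (two_ne_zero) |>.1 h5
    exact Units.ext (by rw [Units.val_one]; linear_combination h6)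
  have hd1 : d = 1 := by
    rw [← hs, hs1, Units.val_one, map_one] at hy
    exact (inv_eq_one.1 hy.symm)
  have hc1 : c = 1 := by rw [hcd, hd1, map_one, one_mul]
  have hS' : ∀ a b, α (sS a b) = sS a b := by
    intro a b
    rw [hS, hd1, hc1, one_mul, one_mul]
  rcases s_form g with ⟨a, b, m, rfl⟩ | ⟨a, b, m, a', b', rfl⟩
  · rw [map_mul, hS', hM]
  · rw [map_mul, map_mul, map_mul, hS', hS', hM, hW]

end

end Pool.Agent.SZA
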