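import Pool.Agent.SZA.NB

/-! # SZA/Tor: the image of the torus is conjugate to the torus -/

set_option autoImplicit false

namespace Pool.Agent.SZA

open Pool.Agent.SZQ Pool.Agent.SZQ.Inst Pool.Agent.Helper8.SUZ

section
variable {F : Type} [Field F] [Finite F] [Tits F]

theorem tor_solve (a b : F) {m : Fˣ} (hm : m ≠ 1) :
    ∃ x y : F, sS x y * sM m * (sS x y)⁻¹ = sS a b * sM m := by
  have hm0 : (m : F) ≠ 0 := m.ne_zero
  have ht0 : th (m : F) ≠ 0 := th_ne hm0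
  have hk0 : th (m : F) * (m : F) ^ 2 ≠ 0 := mul_ne_zero ht0 (pow_ne_zero 2 hm0)
  have h1 : 1 + 1 / th (m : F) ≠ 0 := by
    intro h
    apply hm
    apply fp_a
    have h2 : th (m : F) + 1 = 0 := by
      have h3 := congrArg (fun z => z * th (m : F)) h
      simp only [add_mul, one_mul, zero_mul, one_div_mul_cancel ht0] at h3
      exact h3
    linear_combination h2 - two_zero (F := F)
  have h2 : 1 + 1 / (th (m : F) * (m : F) ^ 2) ≠ 0 := by
    intro h
    apply hm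
    apply fp_b
    have h2 : th (m : F) * (m : F) ^ 2 + 1 = 0 := by
      have h3 := congrArg (fun z => z * (th (m : F) * (m : F) ^ 2)) h
      simp only [add_mul, one_mul, zero_mul, one_div_mul_cancel hk0] at h3
      exact h3
    linear_combination h2 - two_zero (F := F)
  obtain ⟨x, hx⟩ : ∃ x : F, x = a / (1 + 1 / th (m : F)) := ⟨_, rfl⟩
  obtain ⟨y, hy⟩ : ∃ y : F, y = (b - th x * x / (th (m : F) * (m : F) ^ 2) -
    th x * (x / th (m : F))) / (1 + 1 / (th (m : F) * (m : F) ^ 2)) := ⟨_, rfl⟩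
  refine ⟨x, y, ?_⟩
  have e1 : sS x y * sM m * (sS x y)⁻¹ =
      sS x y * (sM m * (sS x y)⁻¹ * (sM m)⁻¹) * sM m := by group
  rw [e1, sS_inv, sM_conj, sS_mul]
  congr 2
  · rw [eq_div_iff h1] at hx
    rw [← hx]
    ring
  · rw [eq_div_iff h2] at hy
    linear_combination hy

/-- module Tor -/
theorem tor (hF : 8 ≤ Nat.card F) (α : Sz (th : F →+* F) ≃* Sz (th : F →+* F))
    (hU : ∀ u, α u ∈ UU F ↔ u ∈ UU F) :
    ∃ u ∈ UU F, ∀ m, ∃ m', u * α (sM m) * u⁻¹ = sM m' := by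
  obtain ⟨m0, hm0⟩ := IsCyclic.exists_generator (α := Fˣ)
  have hnorm : ∀ u ∈ UU F, α (sM m0) * u * (α (sM m0))⁻¹ ∈ UU F := by
    intro u hu
    have h1 : α.symm u ∈ UU F := by
      rw [← hU, MulEquiv.apply_symm_apply]
      exact hu
    obtain ⟨x, y, hxy⟩ := h1
    have h2 : α (sM m0) * u * (α (sM m0))⁻¹ = α (sM m0 * α.symm u * (sM m0)⁻¹) := by
      rw [map_mul, map_mul, map_inv, MulEquiv.apply_symm_apply]
    rw [h2, hU, hxy, sM_conj]
    exact ⟨_, _, rfl⟩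
  obtain ⟨a, b, m1, hm1⟩ := nb _ hnorm
  have hne : m1 ≠ 1 := by
    rintro rfl
    rw [sM_one, mul_one] at hm1
    have h1 : α (sM m0) ∈ UU F := ⟨a, b, hm1⟩
    rw [hU] at h1
    obtain ⟨x, y, hxy⟩ := h1
    have h2 := (s_small (a := 0) (b := 0) (a' := x) (b' := y) (m := m0) (m' := 1) (by
      rw [sS_zero, one_mul, sM_one, mul_one]
      exact hxy)).2.2
    have h3 : Nat.card Fˣ = 1 := by
      rw [← orderOf_eq_card_of_forall_mem_zpowers hm0, h2, orderOf_one]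
    rw [Nat.card_units] at h3
    omega
  obtain ⟨x, y, hxy⟩ := tor_solve a b hne
  refine ⟨(sS x y)⁻¹, (UU F).inv_mem ⟨x, y, rfl⟩, fun m => ?_⟩
  obtain ⟨j, hj⟩ := hm0 m
  refine ⟨m1 ^ j, ?_⟩
  have h1 : sM m = sM m0 ^ j := by
    rw [← hj]
    exact (homM F).map_zpow m0 j
  have h2 : sM (m1 ^ j) = sM m1 ^ j := (homM F).map_zpow m1 j
  have h3 : (sS x y)⁻¹ * α (sM m0) * ((sS x y)⁻¹)⁻¹ = sM m1 := by
    rw [hm1, ← hxy]
    group
  rw [h1, h2, map_zpow, ← h3, conj_zpow]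

end

end Pool.Agent.SZA
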