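import Pool.Agent.SZQ.Inst

set_option autoImplicit false
set_option linter.unusedSectionVars false

/-!
# SZA, module Wei: the image of the Weyl element can be conjugated back by the torus
-/

namespace Pool.Agent.SZA

open Pool.Agent.SZQ Pool.Agent.SZQ.Inst Pool.Agent.Helper8.SUZ

section

variable {F : Type} [Field F] [Finite F] [Tits F]

private theorem wei_sW_sM (m : Fˣ) : (sW : Sz (th : F →+* F)) * sM m = sM m⁻¹ * sW :=
  Subtype.ext (gW_gM m)

private theorem wei_S_M (c d : F) (m : Fˣ) : sS c d * sM m =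
    sM m * sS (c * th (m : F)) (d * (th (m : F) * (m : F) ^ 2)) := by
  have hm : (m : F) ≠ 0 := m.ne_zero
  have ht : th (m : F) ≠ 0 := th_ne hm
  have hk : th (m : F) * (m : F) ^ 2 ≠ 0 := mul_ne_zero ht (pow_ne_zero 2 hm)
  have h := sM_conj m (c * th (m : F)) (d * (th (m : F) * (m : F) ^ 2))
  rw [mul_inv_eq_iff_eq_mul, mul_div_cancel_right₀ _ ht, mul_div_cancel_right₀ _ hk] at h
  exact h.symm

private theorem wei_M_S (c d : F) (m : Fˣ) : sM m * sS c d =
    sS (c / th (m : F)) (d / (th (m : F) * (m : F) ^ 2)) * sM m := by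
  rw [← mul_inv_eq_iff_eq_mul]
  exact sM_conj m c d

/-- module Wei -/
theorem wei (hF : 8 ≤ Nat.card F) (α : Sz (th : F →+* F) ≃* Sz (th : F →+* F))
    (hU : ∀ u, α u ∈ UU F ↔ u ∈ UU F) (hT : ∀ m, ∃ m', α (sM m) = sM m') :
    ∃ s : Fˣ, sM s * α sW * (sM s)⁻¹ = sW := by
  classical
  have := Fintype.ofFinite F
  have hw2 : (sW : Sz (th : F →+* F)) * sW = 1 := Subtype.ext gW_sq
  -- an element of the torus with nontrivial image
  obtain ⟨e, -, he⟩ := Finset.exists_mem_notMem_of_card_lt_card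
    (s := ({0, 1} : Finset F)) (t := Finset.univ) (by
      rw [Finset.card_univ, ← Nat.card_eq_fintype_card]
      have := Finset.card_le_two (a := (0 : F)) (b := 1)
      omega)
  simp only [Finset.mem_insert, Finset.mem_singleton, not_or] at he
  set m₀ : Fˣ := Units.mk0 e he.1 with hm₀
  have hm₀1 : m₀ ≠ 1 := by
    intro h
    exact he.2 (by rw [← Units.val_mk0 he.1, ← hm₀, h, Units.val_one])
  obtain ⟨k, hk⟩ := hT m₀
  have hk1 : k ≠ 1 := by
    rintro rfl
    rw [sM_one] at hk
    have h1 : sM m₀ = 1 := α.injective (hk.trans (map_one α).symm)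
    exact hm₀1 (sM_inj (h1.trans sM_one.symm))
  have hrel : sM k * α sW * sM k = α sW := by
    have h1 : sM m₀ * (sW : Sz (th : F →+* F)) * sM m₀ = sW := by
      rw [mul_assoc, wei_sW_sM, ← mul_assoc, sM_mul, mul_inv_cancel, sM_one, one_mul]
    have h2 := congrArg α h1
    rw [map_mul, map_mul, hk] at h2
    exact h2
  rcases s_form (α sW) with ⟨a, b, m, hx⟩ | ⟨a, b, m, c, d, hx⟩
  · -- the small case: `sW` would normalise `UU`
    exfalso
    have h1 : α (sW * sS 0 1 * sW⁻¹) ∈ UU F := by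
      rw [map_mul, map_mul, map_inv, hx]
      obtain ⟨c, d, hcd⟩ := (hU (sS 0 1)).2 ⟨0, 1, rfl⟩
      rw [hcd]
      have h2 : sS a b * sM m * sS c d * (sS a b * sM m)⁻¹ =
          sS a b * (sM m * sS c d * (sM m)⁻¹) * (sS a b)⁻¹ := by group
      rw [h2, sM_conj]
      exact (UU F).mul_mem ((UU F).mul_mem ⟨_, _, rfl⟩ ⟨_, _, rfl⟩) ((UU F).inv_mem ⟨_, _, rfl⟩)
    obtain ⟨c, d, hcd⟩ := (hU _).1 h1
    have h3 : sS 0 0 * sM 1 * sW * sS 0 1 = sS c d * sM 1 * sW * sS (0 : F) 0 := by
      rw [mul_inv_eq_iff_eq_mul] at hcd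
      rw [sS_zero, sM_one, one_mul, one_mul, mul_one, mul_one]
      exact hcd
    exact one_ne_zero (s_big h3).2.2.2.2
  · -- the big case
    have hkm : (k : F) ≠ 0 := k.ne_zero
    have ht : th (k : F) ≠ 0 := th_ne hkm
    have hq : th (k : F) * (k : F) ^ 2 ≠ 0 := mul_ne_zero ht (pow_ne_zero 2 hkm)
    have ht1 : th (k : F) ≠ 1 := fun h => hk1 (fp_a h)
    have hq1 : th (k : F) * (k : F) ^ 2 ≠ 1 := fun h => hk1 (fp_b h)
    have h1 : sM k * (sS a b * sM m * sW * sS c d) * sM k =
        sS (a / th (k : F)) (b / (th (k : F) * (k : F) ^ 2)) * sM (k * m * k⁻¹) * sW *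
          sS (c * th (k : F)) (d * (th (k : F) * (k : F) ^ 2)) := by
      calc sM k * (sS a b * sM m * sW * sS c d) * sM k
          = (sM k * sS a b) * sM m * sW * (sS c d * sM k) := by group
        _ = (sS (a / th (k : F)) (b / (th (k : F) * (k : F) ^ 2)) * sM k) * sM m * sW *
            (sM k * sS (c * th (k : F)) (d * (th (k : F) * (k : F) ^ 2))) := by
            rw [wei_M_S a b k, wei_S_M c d k]
        _ = sS (a / th (k : F)) (b / (th (k : F) * (k : F) ^ 2)) * (sM k * sM m) * (sW * sM k) *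
            sS (c * th (k : F)) (d * (th (k : F) * (k : F) ^ 2)) := by group
        _ = sS (a / th (k : F)) (b / (th (k : F) * (k : F) ^ 2)) * (sM k * sM m) *
            (sM k⁻¹ * sW) * sS (c * th (k : F)) (d * (th (k : F) * (k : F) ^ 2)) := by
            rw [wei_sW_sM]
        _ = _ := by
            rw [← sM_mul (k * m), ← sM_mul k m]
            group
    rw [hx] at hrel
    rw [h1] at hrel
    obtain ⟨e1, e2, -, e4, e5⟩ := s_big hrel
    have ha : a = 0 := by
      by_contra ha
      rw [div_eq_iff ht] at e1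
      exact ht1 (mul_left_cancel₀ ha (by rw [mul_one]; exact e1.symm))
    have hb : b = 0 := by
      by_contra hb
      rw [div_eq_iff hq] at e2
      exact hq1 (mul_left_cancel₀ hb (by rw [mul_one]; exact e2.symm))
    have hc : c = 0 := by
      by_contra hc
      exact ht1 (mul_left_cancel₀ hc (by rw [mul_one]; exact e4))
    have hd : d = 0 := by
      by_contra hd
      exact hq1 (mul_left_cancel₀ hd (by rw [mul_one]; exact e5))
    have hx' : α sW = sM m * sW := by
      rw [hx, ha, hb, hc, hd, sS_zero, one_mul, mul_one]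
    -- a square root of `m⁻¹`
    obtain ⟨y, hy⟩ := th_surj ((m⁻¹ : Fˣ) : F)
    obtain ⟨s, hs⟩ := th_surj y
    have hs2 : s ^ 2 = ((m⁻¹ : Fˣ) : F) := by rw [← th_th, hs, hy]
    have hs0 : s ≠ 0 := by
      rintro rfl
      rw [zero_pow two_ne_zero] at hs2
      exact (m⁻¹).ne_zero hs2.symm
    refine ⟨Units.mk0 s hs0, ?_⟩
    have hsm : Units.mk0 s hs0 * m * Units.mk0 s hs0 = 1 := by
      apply Units.ext
      rw [Units.val_mul, Units.val_mul, Units.val_mk0, Units.val_one]
      calc s * (m : F) * s = s ^ 2 * (m : F) := by ring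
        _ = ((m⁻¹ : Fˣ) : F) * (m : F) := by rw [hs2]
        _ = 1 := Units.inv_mul m
    rw [hx', sM_inv]
    calc sM (Units.mk0 s hs0) * (sM m * sW) * sM (Units.mk0 s hs0)⁻¹
        = sM (Units.mk0 s hs0) * sM m * (sW * sM (Units.mk0 s hs0)⁻¹) := by group
      _ = sM (Units.mk0 s hs0) * sM m * (sM (Units.mk0 s hs0) * sW) := by
          rw [wei_sW_sM, inv_inv]
      _ = sM (Units.mk0 s hs0 * m * Units.mk0 s hs0) * sW := by
          rw [← sM_mul, ← sM_mul]
          group
      _ = sW := by rw [hsm, sM_one, one_mul]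

end

end Pool.Agent.SZA
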