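import Pool.Agent.SZA.Syl
import Pool.Agent.SZA.Tor
import Pool.Agent.SZA.Wei
import Pool.Agent.SZA.Fld
import Pool.Agent.SZA.Lin
import Pool.Agent.SZQ.AutC

/-! SZA / Asm: every automorphism of the Suzuki group is an inner automorphism times a field
automorphism. -/

set_option autoImplicit false

namespace Pool.Agent.SZA

open Pool.Agent.SZQ Pool.Agent.SZQ.Inst Pool.Agent.Helper8.SUZ

section
variable {F : Type} [Field F] [Finite F] [Tits F]

omit [Finite F] in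
private theorem conj_UU {g : Sz (th : F →+* F)} (hg : ∀ u ∈ UU F, g * u * g⁻¹ ∈ UU F)
    (hg' : ∀ u ∈ UU F, g⁻¹ * u * g ∈ UU F) (x : Sz (th : F →+* F)) :
    g * x * g⁻¹ ∈ UU F ↔ x ∈ UU F := by
  refine ⟨fun h => ?_, hg x⟩
  have h1 := hg' _ h
  have h2 : g⁻¹ * (g * x * g⁻¹) * g = x := by group
  rwa [h2] at h1

omit [Finite F] in
private theorem sM_UU (s : Fˣ) (u : Sz (th : F →+* F)) (hu : u ∈ UU F) :
    sM s * u * (sM s)⁻¹ ∈ UU F := by
  obtain ⟨a, b, rfl⟩ := hu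
  exact ⟨_, _, sM_conj s a b⟩

/-- module Asm -/
theorem every_aut (hF : 8 ≤ Nat.card F) (he : Even (Nat.card F))
    (hc : ∀ (τ : F ≃+* F) (x : F), τ (th x) = th (τ x)) (α : MulAut (Sz (th : F →+* F))) :
    ∃ (σ : F ≃+* F) (A : Sz (th : F →+* F)), ∀ g : Sz (th : F →+* F),
      ((α g : Sz (th : F →+* F)) : GL (Fin 4) F) =
        (A : GL (Fin 4) F) * Matrix.GeneralLinearGroup.map (σ : F →+* F) (g : GL (Fin 4) F) *
          (A : GL (Fin 4) F)⁻¹ := by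
  obtain ⟨g1, h1⟩ := syl hF he α
  obtain ⟨α1, e1⟩ : ∃ α1 : Sz (th : F →+* F) ≃* Sz (th : F →+* F), ∀ g, α1 g = g1 * α g * g1⁻¹ :=
    ⟨α.trans (MulAut.conj g1), fun g => rfl⟩
  have hU1 : ∀ u, α1 u ∈ UU F ↔ u ∈ UU F := fun u => by rw [e1]; exact h1 u
  obtain ⟨u2, hu2, h2⟩ := tor hF α1 hU1
  obtain ⟨α2, e2⟩ : ∃ α2 : Sz (th : F →+* F) ≃* Sz (th : F →+* F), ∀ g, α2 g = u2 * α1 g * u2⁻¹ :=
    ⟨α1.trans (MulAut.conj u2), fun g => rfl⟩
  have hU2 : ∀ u, α2 u ∈ UU F ↔ u ∈ UU F := fun u => by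
    rw [e2, conj_UU (fun x hx => mul_mem (mul_mem hu2 hx) (inv_mem hu2))
      (fun x hx => mul_mem (mul_mem (inv_mem hu2) hx) hu2), hU1]
  have hT2 : ∀ m, ∃ m', α2 (sM m) = sM m' := fun m => by
    rw [e2]
    exact h2 m
  obtain ⟨s, h3⟩ := wei hF α2 hU2 hT2
  obtain ⟨α3, e3⟩ : ∃ α3 : Sz (th : F →+* F) ≃* Sz (th : F →+* F),
      ∀ g, α3 g = sM s * α2 g * (sM s)⁻¹ := ⟨α2.trans (MulAut.conj (sM s)), fun g => rfl⟩
  have hU3 : ∀ u, α3 u ∈ UU F ↔ u ∈ UU F := fun u => by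
    rw [e3, conj_UU (sM_UU s) (fun x hx => by
      have h4 := sM_UU s⁻¹ x hx
      rw [← sM_inv, inv_inv] at h4
      exact h4), hU2]
  have hT3 : ∀ m, ∃ m', α3 (sM m) = sM m' := fun m => by
    obtain ⟨m', hm'⟩ := hT2 m
    refine ⟨m', ?_⟩
    rw [e3, hm', sM_mul, mul_comm s m', ← sM_mul]
    group
  have hW3 : α3 sW = sW := by
    rw [e3]
    exact h3
  obtain ⟨τ, c, hc0, h5, h6⟩ := fldA hF hc α3 hU3 hT3
  obtain ⟨φ, p0, pS, pM, pW, pU⟩ := szAut τ (hc τ)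
  have q0 : ∀ a b, φ.symm (sS a b) = sS (τ.symm a) (τ.symm b) := by
    intro a b
    rw [MulEquiv.symm_apply_eq, pS, RingEquiv.apply_symm_apply, RingEquiv.apply_symm_apply]
  have qM : ∀ m : Fˣ, φ.symm (sM m) = sM (Units.map (τ.symm : F →* F) m) := by
    intro m
    rw [MulEquiv.symm_apply_eq, pM]
    congr 1
    apply Units.ext
    simp
  have qW : φ.symm sW = sW := by
    rw [MulEquiv.symm_apply_eq, pW]
  have key := lin hF (φ.symm.trans α3) (fun u hu => by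
      rw [MulEquiv.trans_apply, hU3]
      obtain ⟨a, b, rfl⟩ := hu
      exact ⟨_, _, q0 a b⟩) c hc0 (fun b => by
      rw [MulEquiv.trans_apply, q0, map_zero, h5, RingEquiv.apply_symm_apply]) (fun m => by
      rw [MulEquiv.trans_apply, qM, h6]
      congr 1
      apply Units.ext
      simp) (by rw [MulEquiv.trans_apply, qW, hW3])
  have key2 : ∀ g, α3 g = φ g := by
    intro g
    have h7 := key (φ g)
    rwa [MulEquiv.trans_apply, MulEquiv.symm_apply_apply] at h7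
  refine ⟨τ, (sM s * u2 * g1)⁻¹, fun g => ?_⟩
  have h8 : α g = (sM s * u2 * g1)⁻¹ * φ g * (sM s * u2 * g1)⁻¹⁻¹ := by
    rw [← key2, e3, e2, e1]
    group
  rw [h8, ← p0]
  rfl

end

end Pool.Agent.SZA
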