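import Pool.Agent.SZQ.Inst

/-! # SZA/NB: the normaliser of `UU` is the Borel subgroup -/

set_option autoImplicit false

namespace Pool.Agent.SZA

open Pool.Agent.SZQ Pool.Agent.SZQ.Inst Pool.Agent.Helper8.SUZ

section
variable {F : Type} [Field F] [Finite F] [Tits F]

/-- module NB -/
theorem nb (g : Sz (th : F →+* F)) (h : ∀ u ∈ UU F, g * u * g⁻¹ ∈ UU F) :
    ∃ a b m, g = sS a b * sM m := by
  rcases s_form g with ⟨a, b, m, hg⟩ | ⟨a, b, m, c, d, hg⟩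
  · exact ⟨a, b, m, hg⟩
  exfalso
  have h1 := h (sS 0 1) ⟨0, 1, rfl⟩
  have hB : ∀ v ∈ UU F, (sS a b * sM m)⁻¹ * v * (sS a b * sM m) ∈ UU F := by
    intro v hv
    have h2 : (sS a b)⁻¹ * v * sS a b ∈ UU F :=
      (UU F).mul_mem ((UU F).mul_mem ((UU F).inv_mem ⟨a, b, rfl⟩) hv) ⟨a, b, rfl⟩
    obtain ⟨x, y, hxy⟩ := h2
    have e : (sS a b * sM m)⁻¹ * v * (sS a b * sM m) =
        (sM m)⁻¹ * ((sS a b)⁻¹ * v * sS a b) * ((sM m)⁻¹)⁻¹ := by group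
    rw [e, hxy, sM_inv, sM_conj]
    exact ⟨_, _, rfl⟩
  have h2 := hB _ h1
  have hcomm : sS c d * sS 0 1 * (sS c d)⁻¹ = sS 0 1 := by
    rw [mul_inv_eq_iff_eq_mul, sS_mul, sS_mul, map_zero]
    congr 1 <;> ring
  have e : (sS a b * sM m)⁻¹ * (g * sS 0 1 * g⁻¹) * (sS a b * sM m) = sW * sS 0 1 * sW⁻¹ := by
    have e1 : (sS a b * sM m)⁻¹ * (g * sS 0 1 * g⁻¹) * (sS a b * sM m) =
        sW * (sS c d * sS 0 1 * (sS c d)⁻¹) * sW⁻¹ := by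
      rw [hg]
      group
    rw [e1, hcomm]
  rw [e] at h2
  obtain ⟨x, y, hxy⟩ := h2
  have h3 : sS 0 0 * sM 1 * sW * sS 0 1 = sS x y * sM 1 * sW * sS 0 0 := by
    rw [sS_zero, sM_one, mul_one, one_mul, mul_one, mul_one]
    exact mul_inv_eq_iff_eq_mul.1 hxy
  exact one_ne_zero (s_big h3).2.2.2.2

end

end Pool.Agent.SZA
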