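import Pool.Agent.SZQ.Inst
import Pool.Agent.SZQ.InstE
import Pool.Agent.SZQ.BN

/-!
# SZA / Syl: an automorphism maps `UU` to a conjugate of `UU`
-/

set_option autoImplicit false

namespace Pool.Agent.SZA

open Pool.Agent.SZQ Pool.Agent.SZQ.Inst Pool.Agent.Helper8.SUZ Pointwise

section
variable {F : Type} [Field F] [Finite F] [Tits F]

private theorem card_B31 {q : ℕ} {G : Type} [Group G] [Finite G] (D : BNd q G) :
    Nat.card D.B = q ^ 2 * (q - 1) := by
  have h1 : Nat.card (D.U × Subgroup.zpowers D.h) = Nat.card D.B := by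
    refine Nat.card_congr (Equiv.ofBijective
      (fun x => (⟨x.1.1 * x.2.1, x.1.1, x.1.2, x.2.1, x.2.2, rfl⟩ : D.B)) ⟨?_, ?_⟩)
    · rintro ⟨⟨u, hu⟩, ⟨t, ht⟩⟩ ⟨⟨u', hu'⟩, ⟨t', ht'⟩⟩ h
      have h2 := congrArg Subtype.val h
      obtain ⟨h3, h4⟩ := D.uniq1 u hu t ht u' hu' t' ht' h2
      subst h3
      subst h4
      rfl
    · rintro ⟨g, u, hu, t, ht, rfl⟩
      exact ⟨(⟨u, hu⟩, ⟨t, ht⟩), rfl⟩
  rw [← h1, Nat.card_prod, D.cardU, Nat.card_zpowers, D.ord]

private theorem index31 {q : ℕ} {G : Type} [Group G] [Finite G] (D : BNd q G) (hq : 2 ≤ q)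
    (he : Even q) (H : Subgroup G) (hH : Nat.card H = q ^ 2) : ¬ 2 ∣ H.index := by
  have h1 := Subgroup.index_mul_card H
  have h2 := Subgroup.index_mul_card D.B
  have h3 : D.B.index = q ^ 2 + 1 := by
    rw [← D.cardO']
    rfl
  rw [h3, card_B31 D, ← h1, hH] at h2
  have h4 : H.index = (q ^ 2 + 1) * (q - 1) := by
    have h5 : 0 < q ^ 2 := by positivity
    apply Nat.eq_of_mul_eq_mul_right h5
    rw [← h2]
    ring
  rw [h4, ← even_iff_two_dvd, Nat.not_even_iff_odd]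
  obtain ⟨r, rfl⟩ := he
  apply Odd.mul
  · exact ⟨2 * r * r, by ring⟩
  · exact ⟨r - 1, by omega⟩

theorem syl (hF : 8 ≤ Nat.card F) (he : Even (Nat.card F))
    (α : Sz (th : F →+* F) ≃* Sz (th : F →+* F)) :
    ∃ g : Sz (th : F →+* F), ∀ u, g * α u * g⁻¹ ∈ UU F ↔ u ∈ UU F := by
  classical
  obtain ⟨D, hDU, -, -⟩ := bnd_szE hF
  have hp : Fact (Nat.Prime 2) := ⟨Nat.prime_two⟩
  have hcU : Nat.card (UU F) = (Nat.card F) ^ 2 := by rw [← hDU]; exact D.cardU
  have h2F : (2 : F) = 0 := by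
    have h := sq_eq (1 : F)
    rw [sS_mul, ← sS_zero] at h
    have h3 := (sS_inj h).2
    simp only [map_zero, zero_mul, add_zero] at h3
    rw [← one_add_one_eq_two]
    exact h3
  have hP : IsPGroup 2 (UU F) := by
    rintro ⟨u, a, b, rfl⟩
    refine ⟨2, Subtype.ext ?_⟩
    show (sS a b) ^ (2 ^ 2) = 1
    have h1 : sS a b * sS a b = sS 0 (b + b + th a * a) := by
      rw [sS_mul]
      congr 1
      rw [← two_mul, h2F, zero_mul]
    have h2 : (sS a b) ^ (2 ^ 2) = (sS a b * sS a b) * (sS a b * sS a b) := by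
      have h3 : (sS a b) ^ (2 ^ 2) = (sS a b) ^ (2 + 2) := rfl
      rw [h3, pow_add, pow_two]
    rw [h2, h1, sq_eq]
  have hcM : Nat.card ((UU F).map α.toMonoidHom) = (Nat.card F) ^ 2 := by
    rw [← hcU]
    exact (Nat.card_congr ((UU F).equivMapOfInjective α.toMonoidHom α.injective).toEquiv).symm
  have hP' : IsPGroup 2 ((UU F).map α.toMonoidHom) := hP.map _
  have i1 := index31 D (by omega) he (UU F) hcU
  have i2 := index31 D (by omega) he ((UU F).map α.toMonoidHom) hcM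
  obtain ⟨g, hg⟩ := MulAction.exists_smul_eq (Sz (th : F →+* F)) (hP'.toSylow i2) (hP.toSylow i1)
  have hg' : MulAut.conj g • ((UU F).map α.toMonoidHom) = UU F := by
    have h1 := congrArg (fun P : Sylow 2 (Sz (th : F →+* F)) =>
      (P : Subgroup (Sz (th : F →+* F)))) hg
    exact h1
  refine ⟨g, fun u => ?_⟩
  constructor
  · intro h
    rw [← hg', Subgroup.mem_smul_pointwise_iff_exists] at h
    obtain ⟨s, hs, h1⟩ := h
    obtain ⟨v, hv, rfl⟩ := hs
    have h2 : g * α v * g⁻¹ = g * α u * g⁻¹ := h1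
    have h3 : α v = α u := by
      have h4 := mul_right_cancel h2
      exact mul_left_cancel h4
    rw [← α.injective h3]
    exact hv
  · intro h
    rw [← hg', Subgroup.mem_smul_pointwise_iff_exists]
    exact ⟨α u, ⟨u, h, rfl⟩, rfl⟩

end

end Pool.Agent.SZA
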